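import Mathlib

namespace Pool.Agent.MP_47c36b_co

/-- The ordered graph `G` on `Fin n` has an `H`-tiling (vertex-disjoint, order-preserving copies
of the ordered graph `H`) that covers at least `x * n` vertices. -/
def HasTiling {h n : ℕ} (x : ℝ) (H : SimpleGraph (Fin h)) (G : SimpleGraph (Fin n)) : Prop :=
  ∃ T : Finset (Fin h → Fin n),
    (∀ φ ∈ T, StrictMono φ ∧ ∀ i j, H.Adj i j → G.Adj (φ i) (φ j)) ∧
    (∀ φ ∈ T, ∀ ψ ∈ T, φ ≠ ψ → Disjoint (Set.range φ) (Set.range ψ)) ∧
    x * n ≤ (⋃ φ ∈ T, Set.range φ).ncard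

/-- The smallest size of a colour class over the proper `χ(F)`-colourings of `F`. -/
noncomputable def sigma {n : ℕ} (F : SimpleGraph (Fin n)) : ℕ :=
  sInf {s | ∃ (C : F.Coloring (Fin F.chromaticNumber.toNat)) (c : Fin F.chromaticNumber.toNat),
    (C.colorClass c).ncard = s}

/-- The critical chromatic number. -/
noncomputable def chiCr {n : ℕ} (F : SimpleGraph (Fin n)) : ℝ :=
  ((F.chromaticNumber.toNat : ℝ) - 1) * n / ((n : ℝ) - sigma F)

/-- `B` is an `x`-bottlegraph of `H`: complete multipartite with `k + 2` nonempty parts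
(the fibres of `part`), part `0` has at most `m` vertices, the others exactly `m`, and every
interval labelling gives an ordered graph with an `(x,H)`-tiling. -/
def IsBottle {h n : ℕ} (x : ℝ) (H : SimpleGraph (Fin h)) (B : SimpleGraph (Fin n)) : Prop :=
  ∃ (k m : ℕ) (part : Fin n → Fin (k + 2)),
    Function.Surjective part ∧ (∀ u v, B.Adj u v ↔ part u ≠ part v) ∧
    (part ⁻¹' {0}).ncard ≤ m ∧ (∀ i, i ≠ 0 → (part ⁻¹' {i}).ncard = m) ∧
    ∀ (σ : Equiv.Perm (Fin (k + 2))) (φ : Fin n ≃ Fin n),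
      (∀ u v, σ (part u) < σ (part v) → φ u < φ v) → HasTiling x H (B.map φ)

/-- The infimum of the critical chromatic numbers of the `x`-bottlegraphs of `H`. -/
noncomputable def chiStar {h : ℕ} (x : ℝ) (H : SimpleGraph (Fin h)) : ℝ :=
  sInf {c | ∃ (n : ℕ) (B : SimpleGraph (Fin n)), IsBottle x H B ∧ chiCr B = c}

end Pool.Agent.MP_47c36b_co
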