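import Mathlib

namespace Pool.Agent.MP_47c36b_co

lemma exists_between_le {F : Type} [LinearOrder F] [Nonempty F] {L U : Set F} (hL : L.Finite)
    (hU : U.Finite) (h : ∀ l ∈ L, ∀ u ∈ U, l ≤ u) : ∃ t, (∀ l ∈ L, l ≤ t) ∧ ∀ u ∈ U, t ≤ u := by
  rcases L.eq_empty_or_nonempty with rfl | hne
  · rcases U.eq_empty_or_nonempty with rfl | hne
    · exact ⟨Classical.arbitrary F, by simp, by simp⟩
    · obtain ⟨u, hu, hmin⟩ := Set.exists_min_image U id hU hne
      exact ⟨u, by simp, hmin⟩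
  · obtain ⟨l, hl, hmax⟩ := Set.exists_max_image L id hL hne
    exact ⟨l, hmax, h l hl⟩

/-- Fourier-Motzkin elimination, uniformly in the ordered field. -/
lemma fm_fin {E : Type} [AddCommGroup E] [Module ℚ E] (n : ℕ) :
    ∀ (C : Set ((Fin n → ℚ) × E)), C.Finite → ∃ D : Set E, D.Finite ∧
      ∀ (F : Type) [Field F] [LinearOrder F] [IsStrictOrderedRing F] (ev : E →ₗ[ℚ] F),
        (∃ y : Fin n → F, ∀ c ∈ C, ∑ i, (c.1 i : F) * y i ≤ ev c.2) ↔ ∀ e ∈ D, 0 ≤ ev e := by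
  induction n with
  | zero =>
    intro C hC
    refine ⟨Prod.snd '' C, hC.image _, fun F _ _ _ ev => ?_⟩
    constructor
    · rintro ⟨y, hy⟩ e ⟨c, hc, rfl⟩
      simpa using hy c hc
    · intro h
      exact ⟨fun i => i.elim0, fun c hc => by simpa using h c.2 ⟨c, hc, rfl⟩⟩
  | succ n ih =>
    intro C hC
    let tl : (Fin (n + 1) → ℚ) × E → (Fin n → ℚ) × E := fun c => (fun i => c.1 i.succ, c.2)
    let comb : (Fin (n + 1) → ℚ) × E → (Fin (n + 1) → ℚ) × E → (Fin n → ℚ) × E :=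
      fun c d => (fun i => (-d.1 0) * c.1 i.succ + c.1 0 * d.1 i.succ,
        (-d.1 0) • c.2 + c.1 0 • d.2)
    let C' : Set ((Fin n → ℚ) × E) := tl '' {c ∈ C | c.1 0 = 0} ∪
      Set.image2 comb {c ∈ C | 0 < c.1 0} {c ∈ C | c.1 0 < 0}
    have hC' : C'.Finite := ((hC.sep _).image _).union ((hC.sep _).image2 _ (hC.sep _))
    obtain ⟨D, hD, hDF⟩ := ih C' hC'
    refine ⟨D, hD, fun F _ _ _ ev => ?_⟩
    rw [← hDF F ev]
    have hcomb : ∀ (y : Fin n → F) c d, ∑ i, ((comb c d).1 i : F) * y i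
        = (-(d.1 0 : F)) * ∑ i, (c.1 i.succ : F) * y i
          + (c.1 0 : F) * ∑ i, (d.1 i.succ : F) * y i := by
      intro y c d
      simp only [comb, Finset.mul_sum, ← Finset.sum_add_distrib]
      refine Finset.sum_congr rfl (fun i _ => ?_)
      push_cast
      ring
    have hev : ∀ c d, ev (comb c d).2 = (-(d.1 0 : F)) * ev c.2 + (c.1 0 : F) * ev d.2 := by
      intro c d
      simp [comb, Rat.smul_def]
    constructor
    · rintro ⟨y, hy⟩
      refine ⟨fun i => y i.succ, ?_⟩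
      rintro c (⟨c, ⟨hc, h0⟩, rfl⟩ | ⟨c, ⟨hc, hc0⟩, d, ⟨hd, hd0⟩, rfl⟩)
      · have := hy c hc
        rw [Fin.sum_univ_succ, h0] at this
        simpa [tl] using this
      · rw [hcomb, hev]
        have h1 := hy c hc
        have h2 := hy d hd
        rw [Fin.sum_univ_succ] at h1 h2
        have hc0' : (0 : F) < c.1 0 := by exact_mod_cast hc0
        have hd0' : (0 : F) < -(d.1 0 : F) := by
          have : (d.1 0 : F) < 0 := by exact_mod_cast hd0
          linarith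
        nlinarith [mul_le_mul_of_nonneg_left h1 hd0'.le, mul_le_mul_of_nonneg_left h2 hc0'.le]
    · rintro ⟨y, hy⟩
      let val : (Fin (n + 1) → ℚ) × E → F :=
        fun c => (ev c.2 - ∑ i, (c.1 i.succ : F) * y i) / c.1 0
      obtain ⟨t, ht1, ht2⟩ := exists_between_le (L := val '' {c ∈ C | c.1 0 < 0})
        (U := val '' {c ∈ C | 0 < c.1 0}) ((hC.sep _).image _) ((hC.sep _).image _) (by
          rintro _ ⟨d, ⟨hd, hd0⟩, rfl⟩ _ ⟨c, ⟨hc, hc0⟩, rfl⟩
          have h1 := hy (comb c d) (Or.inr ⟨c, ⟨hc, hc0⟩, d, ⟨hd, hd0⟩, rfl⟩)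
          rw [hcomb, hev] at h1
          have hc0' : (0 : F) < c.1 0 := by exact_mod_cast hc0
          have hd0' : (d.1 0 : F) < 0 := by exact_mod_cast hd0
          simp only [val]
          rw [le_div_iff₀ hc0', div_mul_eq_mul_div, div_le_iff_of_neg hd0']
          linarith)
      refine ⟨Fin.cons t y, fun c hc => ?_⟩
      rw [Fin.sum_univ_succ]
      simp only [Fin.cons_zero, Fin.cons_succ]
      rcases lt_trichotomy (c.1 0) 0 with h0 | h0 | h0
      · have h1 := ht1 _ ⟨c, ⟨hc, h0⟩, rfl⟩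
        have h0' : (c.1 0 : F) < 0 := by exact_mod_cast h0
        simp only [val] at h1
        rw [div_le_iff_of_neg h0'] at h1
        linarith
      · have h1 := hy (tl c) (Or.inl ⟨c, ⟨hc, h0⟩, rfl⟩)
        rw [h0]
        simpa [tl] using h1
      · have h1 := ht2 _ ⟨c, ⟨hc, h0⟩, rfl⟩
        have h0' : (0 : F) < c.1 0 := by exact_mod_cast h0
        simp only [val] at h1
        rw [le_div_iff₀ h0'] at h1
        linarith

lemma fm {E κ : Type} [AddCommGroup E] [Module ℚ E] [Fintype κ]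
    (C : Set ((κ → ℚ) × E)) (hC : C.Finite) : ∃ D : Set E, D.Finite ∧
      ∀ (F : Type) [Field F] [LinearOrder F] [IsStrictOrderedRing F] (ev : E →ₗ[ℚ] F),
        (∃ y : κ → F, ∀ c ∈ C, ∑ i, (c.1 i : F) * y i ≤ ev c.2) ↔ ∀ e ∈ D, 0 ≤ ev e := by
  let e := Fintype.equivFin κ
  obtain ⟨D, hD, h⟩ := fm_fin (E := E) (Fintype.card κ)
    ((fun c : (κ → ℚ) × E => (c.1 ∘ e.symm, c.2)) '' C) (hC.image _)
  refine ⟨D, hD, fun F _ _ _ ev => ?_⟩
  rw [← h F ev]
  constructor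
  · rintro ⟨y, hy⟩
    refine ⟨y ∘ e.symm, ?_⟩
    rintro _ ⟨c, hc, rfl⟩
    have := hy c hc
    rw [← Equiv.sum_comp e.symm] at this
    exact this
  · rintro ⟨y, hy⟩
    refine ⟨y ∘ e, fun c hc => ?_⟩
    have := hy _ ⟨c, hc, rfl⟩
    rw [← Equiv.sum_comp e.symm]
    simpa using this

/-- Piecewise affine on the whole line: finitely many intervals. -/
def PW (g : ℝ → ℝ) : Prop :=
  ∃ J : Set (Set ℝ), J.Finite ∧ (∀ x, ∃ I ∈ J, x ∈ I) ∧
    ∀ I ∈ J, I.OrdConnected ∧ ∃ a b : ℝ, ∀ x ∈ I, g x = a * x + b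

lemma PW.affine (a b : ℝ) : PW (fun x => a * x + b) :=
  ⟨{Set.univ}, Set.finite_singleton _, fun x => ⟨Set.univ, rfl, trivial⟩, by
    rintro _ rfl
    exact ⟨Set.ordConnected_univ, a, b, fun _ _ => rfl⟩⟩

lemma PW.const (b : ℝ) : PW (fun _ => b) := by
  simpa using PW.affine 0 b

lemma ordConnected_le (a b : ℝ) : Set.OrdConnected {x : ℝ | 0 ≤ a * x + b} := by
  refine ⟨fun x hx y hy z hz => ?_⟩
  simp only [Set.mem_ofPred_eq] at *
  rcases le_total 0 a with h | h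
  · nlinarith [hz.1]
  · nlinarith [hz.2]

lemma ordConnected_lt (a b : ℝ) : Set.OrdConnected {x : ℝ | a * x + b < 0} := by
  refine ⟨fun x hx y hy z hz => ?_⟩
  simp only [Set.mem_ofPred_eq] at *
  rcases le_total 0 a with h | h
  · nlinarith [hz.2]
  · nlinarith [hz.1]

/-- Gluing along the sign of a piecewise affine function. -/
lemma PW.ite {f g s : ℝ → ℝ} (hf : PW f) (hg : PW g) (hs : PW s) :
    PW (fun x => if 0 ≤ s x then f x else g x) := by
  obtain ⟨J1, hJ1, hc1, h1⟩ := hf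
  obtain ⟨J2, hJ2, hc2, h2⟩ := hg
  obtain ⟨J3, hJ3, hc3, h3⟩ := hs
  refine ⟨Set.image2 (fun I K => I ∩ K ∩ {x | 0 ≤ s x}) J1 J3 ∪
    Set.image2 (fun I K => I ∩ K ∩ {x | s x < 0}) J2 J3,
    (hJ1.image2 _ hJ3).union (hJ2.image2 _ hJ3), fun x => ?_, ?_⟩
  · obtain ⟨I1, hI1, hx1⟩ := hc1 x
    obtain ⟨I2, hI2, hx2⟩ := hc2 x
    obtain ⟨I3, hI3, hx3⟩ := hc3 x
    rcases le_or_gt 0 (s x) with h | h
    · exact ⟨_, Or.inl ⟨I1, hI1, I3, hI3, rfl⟩, ⟨hx1, hx3⟩, h⟩
    · exact ⟨_, Or.inr ⟨I2, hI2, I3, hI3, rfl⟩, ⟨hx2, hx3⟩, h⟩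
  · rintro _ (⟨I, hI, K, hK, rfl⟩ | ⟨I, hI, K, hK, rfl⟩)
    · obtain ⟨o1, a, b, hab⟩ := h1 I hI
      obtain ⟨o3, c, d, hcd⟩ := h3 K hK
      refine ⟨?_, a, b, fun x hx => ?_⟩
      · have : I ∩ K ∩ {x | 0 ≤ s x} = I ∩ K ∩ {x | 0 ≤ c * x + d} := by
          ext x
          simp only [Set.mem_inter_iff, Set.mem_ofPred_eq]
          exact and_congr_right (fun hx => by rw [hcd x hx.2])
        simp only [this]
        exact (o1.inter o3).inter (ordConnected_le c d)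
      · have : 0 ≤ s x := hx.2
        simp only [this, if_true]
        exact hab x hx.1.1
    · obtain ⟨o1, a, b, hab⟩ := h2 I hI
      obtain ⟨o3, c, d, hcd⟩ := h3 K hK
      refine ⟨?_, a, b, fun x hx => ?_⟩
      · have : I ∩ K ∩ {x | s x < 0} = I ∩ K ∩ {x | c * x + d < 0} := by
          ext x
          simp only [Set.mem_inter_iff, Set.mem_ofPred_eq]
          exact and_congr_right (fun hx => by rw [hcd x hx.2])
        simp only [this]
        exact (o1.inter o3).inter (ordConnected_lt c d)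
      · have : ¬ 0 ≤ s x := not_le.2 hx.2
        simp only [this, if_false]
        exact hab x hx.1.1

lemma PW.sub {f g : ℝ → ℝ} (hf : PW f) (hg : PW g) : PW (fun x => f x - g x) := by
  obtain ⟨J1, hJ1, hc1, h1⟩ := hf
  obtain ⟨J2, hJ2, hc2, h2⟩ := hg
  refine ⟨Set.image2 (fun I K => I ∩ K) J1 J2, hJ1.image2 _ hJ2, fun x => ?_, ?_⟩
  · obtain ⟨I1, hI1, hx1⟩ := hc1 x
    obtain ⟨I2, hI2, hx2⟩ := hc2 x
    exact ⟨_, ⟨I1, hI1, I2, hI2, rfl⟩, hx1, hx2⟩
  · rintro _ ⟨I, hI, K, hK, rfl⟩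
    obtain ⟨o1, a, b, hab⟩ := h1 I hI
    obtain ⟨o2, c, d, hcd⟩ := h2 K hK
    refine ⟨o1.inter o2, a - c, b - d, fun x hx => ?_⟩
    simp only [hab x hx.1, hcd x hx.2]
    ring

lemma PW.max {f g : ℝ → ℝ} (hf : PW f) (hg : PW g) : PW (fun x => max (f x) (g x)) := by
  convert PW.ite hf hg (hf.sub hg) using 2 with x
  split_ifs with h
  · exact max_eq_left (by linarith)
  · exact max_eq_right (by linarith)

lemma PW.min {f g : ℝ → ℝ} (hf : PW f) (hg : PW g) : PW (fun x => min (f x) (g x)) := by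
  convert PW.ite hg hf (hf.sub hg) using 2 with x
  split_ifs with h
  · exact min_eq_right (by linarith)
  · exact min_eq_left (by linarith)

/-- Evaluation of a rational affine form at a point of the plane. -/
def evl {F : Type} [Field F] [CharZero F] (x α : F) : (ℚ × ℚ × ℚ) →ₗ[ℚ] F where
  toFun e := e.1 * x + e.2.1 * α + e.2.2
  map_add' e e' := by
    simp only [Prod.fst_add, Prod.snd_add]
    push_cast
    ring
  map_smul' q e := by
    simp only [Prod.smul_fst, Prod.smul_snd, smul_eq_mul, RingHom.id_apply, Rat.smul_def]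
    push_cast
    ring

lemma evl_apply {F : Type} [Field F] [CharZero F] (x α : F) (e : ℚ × ℚ × ℚ) :
    evl x α e = e.1 * x + e.2.1 * α + e.2.2 := rfl

lemma exists_top {D : Set (ℚ × ℚ × ℚ)} (hD : D.Finite) (u : ℝ) :
    ∃ φ : ℝ → ℝ, PW φ ∧ ∀ x, φ x ≤ u ∧ (∀ e ∈ D, e.2.1 < 0 → 0 ≤ evl x (φ x) e) ∧
      ∀ α ≤ u, (∀ e ∈ D, 0 ≤ evl x α e) → α ≤ φ x := by
  induction D, hD using Set.Finite.induction_on with
  | empty => exact ⟨fun _ => u, PW.const u, fun x => ⟨le_rfl, by simp, fun α h _ => h⟩⟩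
  | @insert e D _ _ ih =>
    obtain ⟨φ, hφ, h⟩ := ih
    rcases lt_or_ge e.2.1 0 with he | he
    · have he' : (e.2.1 : ℝ) < 0 := by exact_mod_cast he
      refine ⟨fun x => min (φ x) ((e.1 / -e.2.1 : ℝ) * x + e.2.2 / -e.2.1),
        hφ.min (PW.affine _ _), fun x => ⟨(min_le_left _ _).trans (h x).1, ?_, ?_⟩⟩
      · rintro e' (rfl | he'') hneg
        · have h1 := min_le_right (φ x) ((e'.1 / -e'.2.1 : ℝ) * x + e'.2.2 / -e'.2.1)
          have h2 : (e'.2.1 : ℝ) * ((e'.1 / -e'.2.1 : ℝ) * x + e'.2.2 / -e'.2.1)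
              = -(e'.1 * x + e'.2.2) := by
            field_simp [he'.ne]
            ring
          rw [evl_apply]
          nlinarith
        · have h1 := (h x).2.1 e' he'' hneg
          have h2 := min_le_left (φ x) ((e.1 / -e.2.1 : ℝ) * x + e.2.2 / -e.2.1)
          have hneg' : (e'.2.1 : ℝ) < 0 := by exact_mod_cast hneg
          rw [evl_apply] at h1 ⊢
          nlinarith
      · intro α hα hall
        refine le_min ((h x).2.2 α hα (fun e' he' => hall e' (Or.inr he'))) ?_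
        have h1 := hall e (Or.inl rfl)
        rw [evl_apply] at h1
        rw [div_mul_eq_mul_div, ← add_div, le_div_iff₀ (by linarith)]
        linarith
    · refine ⟨φ, hφ, fun x => ⟨(h x).1, ?_, fun α hα hall =>
        (h x).2.2 α hα (fun e' he' => hall e' (Or.inr he'))⟩⟩
      rintro e' (rfl | he') hneg
      · exact absurd hneg (not_lt.2 he)
      · exact (h x).2.1 e' he' hneg

open Classical in
lemma PW.ite_all {D : Set (ℚ × ℚ × ℚ)} (hD : D.Finite) (l : ℝ) {φ : ℝ → ℝ} (hφ : PW φ) :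
    PW (fun x => if ∀ e ∈ D, 0 ≤ evl x l e then φ x else 0) := by
  induction D, hD using Set.Finite.induction_on with
  | empty => simpa using hφ
  | @insert e D _ _ ih =>
    convert PW.ite ih (PW.const 0) (PW.affine e.1 (e.2.1 * l + e.2.2)) using 2 with x
    have h1 : evl x l e = e.1 * x + (e.2.1 * l + e.2.2) := by rw [evl_apply, add_assoc]
    rw [Set.forall_mem_insert, h1]
    by_cases h : 0 ≤ (e.1 : ℝ) * x + (e.2.1 * l + e.2.2) <;> simp [h]

/-- The top of the fibres of a polygon whose fibres reach down to `l`. -/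
lemma exists_fibre_top {D : Set (ℚ × ℚ × ℚ)} (hD : D.Finite) (l u : ℝ)
    (hu : ∀ x α : ℝ, (∀ e ∈ D, 0 ≤ evl x α e) → α ≤ u)
    (hu' : ∀ x α : ℝ, (∀ e ∈ D, 0 ≤ evl x α e) → ∀ e ∈ D, 0 ≤ evl x l e) :
    ∃ g : ℝ → ℝ, PW g ∧ ∀ x, ((∀ e ∈ D, 0 ≤ evl x (g x) e) ∨ g x = 0) ∧
      ∀ α, (∀ e ∈ D, 0 ≤ evl x α e) → α ≤ g x := by
  classical
  obtain ⟨φ, hφ, h⟩ := exists_top hD u
  refine ⟨_, PW.ite_all hD l hφ, fun x => ⟨?_, fun α hα => ?_⟩⟩
  · by_cases hx : ∀ e ∈ D, 0 ≤ evl x l e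
    · left
      intro e he
      rw [if_pos hx]
      rcases lt_or_ge e.2.1 0 with h0 | h0
      · exact (h x).2.1 e he h0
      · have h1 := (h x).2.2 l (hu x l hx) hx
        have h2 := hx e he
        have h0' : (0 : ℝ) ≤ e.2.1 := by exact_mod_cast h0
        rw [evl_apply] at h2 ⊢
        nlinarith
    · right
      rw [if_neg hx]
  · rw [if_pos (hu' x α hα)]
    exact (h x).2.2 α (hu x α hα) hα

/-- A rational point to the right of a real point. -/
lemma exists_rat_right {D : Set (ℚ × ℚ × ℚ)} (hD : D.Finite) (x : ℝ) (α : ℚ)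
    (h : ∀ e ∈ D, 0 ≤ evl x (α : ℝ) e) : ∃ x' : ℚ, x ≤ x' ∧ ∀ e ∈ D, 0 ≤ evl x' α e := by
  have key : ∀ x' : ℚ, x ≤ x' → (∀ e ∈ D, e.1 < 0 → 0 ≤ evl x' α e) →
      ∀ e ∈ D, 0 ≤ evl x' α e := by
    intro x' hx' h' e he
    rcases lt_or_ge e.1 0 with h0 | h0
    · exact h' e he h0
    · have h1 := h e he
      have h0' : (0 : ℝ) ≤ e.1 := by exact_mod_cast h0
      rw [evl_apply] at h1 ⊢
      have : (0 : ℝ) ≤ e.1 * x' + e.2.1 * α + e.2.2 := by nlinarith
      exact_mod_cast this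
  rcases {e ∈ D | e.1 < 0}.eq_empty_or_nonempty with hemp | hne
  · obtain ⟨x', hx'⟩ := exists_rat_gt x
    refine ⟨x', hx'.le, key x' hx'.le (fun e he h0 => ?_)⟩
    have : e ∈ {e ∈ D | e.1 < 0} := ⟨he, h0⟩
    rw [hemp] at this
    exact absurd this (Set.notMem_empty _)
  · obtain ⟨e₀, ⟨he₀, h₀⟩, hmin⟩ := Set.exists_min_image _
      (fun e : ℚ × ℚ × ℚ => (e.2.1 * α + e.2.2) / -e.1) (hD.sep _) hne
    have hx : x ≤ (((e₀.2.1 * α + e₀.2.2) / -e₀.1 : ℚ) : ℝ) := by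
      have h1 := h e₀ he₀
      have h0' : (e₀.1 : ℝ) < 0 := by exact_mod_cast h₀
      rw [evl_apply] at h1
      push_cast
      rw [le_div_iff₀ (by linarith)]
      linarith
    refine ⟨_, hx, key _ hx (fun e he h0 => ?_)⟩
    have h1 := hmin e ⟨he, h0⟩
    rw [le_div_iff₀ (by linarith)] at h1
    rw [evl_apply]
    simp only [Rat.cast_id]
    linarith

end Pool.Agent.MP_47c36b_co
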