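import Pool.Agent.MP_47c36b_co.Main

namespace Pool.Agent.MP_47c36b_co

open Filter Topology

lemma rel_left {h : ℕ} {H : SimpleGraph (Fin h)} {k : ℕ} {x x' α : ℝ} (hR : Rel H k x α)
    (hx : x' ≤ x) : Rel H k x' α := by
  refine ⟨hR.1, hR.2.1, fun j => ?_⟩
  obtain ⟨y, h0, h1, h2, h3⟩ := hR.2.2 j
  exact ⟨y, h0, h1, h2, hx.trans h3⟩

lemma rel_closed {h : ℕ} (H : SimpleGraph (Fin h)) (k : ℕ) (a b : ℝ) :
    IsClosed {x : ℝ | Rel H k x (a * x + b)} := by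
  obtain ⟨D, _, hDF⟩ := rel_poly H k
  simp_rw [hDF, Set.ofPred_forall]
  refine isClosed_iInter (fun e => isClosed_iInter (fun _ => ?_))
  simp_rw [evl_apply]
  exact isClosed_le continuous_const (by fun_prop)

theorem piecewise_succ {h : ℕ} (H : SimpleGraph (Fin (h + 1))) :
    ∃ J : Set (Set ℝ), J.Finite ∧ ⋃₀ J = Set.Ioo 0 1 ∧
      ∀ I ∈ J, I.OrdConnected ∧ I.Nontrivial ∧
        ∃ a b : ℝ, ∀ x ∈ I, 1 - 1 / chiStar x H = a * x + b := by
  obtain ⟨g, ⟨J, hJ, hcov, hI⟩, hg⟩ := exists_pw H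
  let L : Set ℝ → Set ℝ := fun I => {p ∈ Set.Ioo (0 : ℝ) 1 | ∃ᶠ x in 𝓝[<] p, x ∈ I}
  have hin : ∀ I ∈ J, ∀ x₁ ∈ I, ∀ x₂ ∈ I, ∀ z, x₁ < z → z < x₂ → ∃ᶠ x in 𝓝[<] z, x ∈ I := by
    intro I hIJ x₁ h₁ x₂ h₂ z hz1 hz2
    refine Eventually.frequently (mem_nhdsWithin_of_mem_nhds ?_)
    exact mem_of_superset (Icc_mem_nhds hz1 hz2) ((hI I hIJ).1.out h₁ h₂)
  have hpick : ∀ (I : Set ℝ) (p z : ℝ), (∃ᶠ x in 𝓝[<] p, x ∈ I) → z < p →
      ∃ x ∈ I, z < x ∧ x < p := by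
    intro I p z hp hz
    obtain ⟨x, hx1, hx2⟩ := (hp.and_eventually (Ioo_mem_nhdsLT hz)).exists
    exact ⟨x, hx1, hx2⟩
  refine ⟨L '' J ∩ {I | I.Nonempty}, (hJ.image _).inter_of_left _, ?_, ?_⟩
  · ext p
    constructor
    · rintro ⟨_, ⟨⟨I, _, rfl⟩, _⟩, hp⟩
      exact hp.1
    · intro hp
      have h1 : ∃ᶠ x in 𝓝[<] p, ∃ I ∈ J, x ∈ I := (Eventually.of_forall hcov).frequently
      obtain ⟨I, hIJ, h2⟩ := (hJ.frequently_exists).1 h1
      exact ⟨L I, ⟨⟨I, hIJ, rfl⟩, ⟨p, hp, h2⟩⟩, hp, h2⟩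
  · rintro _ ⟨⟨I, hIJ, rfl⟩, p, hp⟩
    refine ⟨⟨fun p₁ h₁ p₂ h₂ z hz => ?_⟩, ?_, ?_⟩
    · refine ⟨Set.ordConnected_Ioo.out h₁.1 h₂.1 hz, ?_⟩
      rcases hz.2.eq_or_lt with rfl | hz2
      · exact h₂.2
      obtain ⟨x₁, hx₁, _, hx₁'⟩ := hpick I p₁ (p₁ - 1) h₁.2 (by linarith)
      obtain ⟨x₂, hx₂, hx₂', _⟩ := hpick I p₂ z h₂.2 hz2
      exact hin I hIJ x₁ hx₁ x₂ hx₂ z (hx₁'.trans_le hz.1) hx₂'
    · obtain ⟨x₁, hx₁, h0, hx₁'⟩ := hpick I p 0 hp.2 hp.1.1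
      obtain ⟨x₂, hx₂, h1, hx₂'⟩ := hpick I p x₁ hp.2 hx₁'
      refine ⟨(x₁ + x₂) / 2, ⟨⟨by linarith, by linarith [hp.1.2]⟩,
        hin I hIJ x₁ hx₁ x₂ hx₂ _ (by linarith) (by linarith)⟩, p, hp, ?_⟩
      intro he
      linarith
    · obtain ⟨a, b, hab⟩ := (hI I hIJ).2
      refine ⟨-a, 1 - b, fun q hq => ?_⟩
      have hq1 : q ≤ 1 := hq.1.2.le
      have hfr : ∃ᶠ x in 𝓝[<] q, x ∈ I ∧ x < q := hq.2.and_eventually self_mem_nhdsWithin
      have h1 : g q ≤ a * q + b := by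
        have hc : IsClosed {x : ℝ | g q ≤ a * x + b} := isClosed_le continuous_const (by fun_prop)
        suffices hq' : q ∈ {x : ℝ | g q ≤ a * x + b} from hq'
        refine hc.mem_of_frequently_of_tendsto (f := fun x => x) (hfr.mono ?_)
          (tendsto_nhdsWithin_of_tendsto_nhds tendsto_id)
        rintro x ⟨hx, hxq⟩
        obtain ⟨k, hk⟩ := (hg q hq1).2.1
        have := (hg x (hxq.le.trans hq1)).2.2 k _ (rel_left hk hxq.le)
        rwa [hab x hx] at this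
      have h2 : a * q + b ≤ g q := by
        have hc : IsClosed (⋃ k ∈ Set.Iic (2 * h + 1), {x : ℝ | Rel H k x (a * x + b)}) :=
          (Set.finite_Iic _).isClosed_biUnion (fun k _ => rel_closed H k a b)
        have hmem := hc.mem_of_frequently_of_tendsto (f := fun x => x) (hfr.mono (by
          rintro x ⟨hx, hxq⟩
          have hx1 := hxq.le.trans hq1
          obtain ⟨k, hk⟩ := (hg x hx1).2.1
          have h3 := (hg x hx1).2.2 _ _ (rel_base H hx1)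
          have hh : (0 : ℝ) < 2 * h + 2 := by positivity
          rw [div_le_iff₀ hh] at h3
          have h4 := hk.2.1
          have h5 : 0 < g x := by
            by_contra hle
            nlinarith [mul_nonneg hh.le (neg_nonneg.2 (not_lt.1 hle))]
          have h6 : (k : ℝ) ≤ 2 * h + 1 := by
            have : ((k : ℝ) + 1) * g x ≤ (2 * h + 2) * g x := by linarith
            linarith [le_of_mul_le_mul_right this h5]
          have h7 : k ≤ 2 * h + 1 := by exact_mod_cast h6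
          rw [hab x hx] at hk
          exact Set.mem_biUnion (Set.mem_Iic.2 h7) hk))
          (tendsto_nhdsWithin_of_tendsto_nhds tendsto_id)
        obtain ⟨k, _, hk⟩ := Set.mem_iUnion₂.1 hmem
        exact (hg q hq1).2.2 k _ hk
      rw [(hg q hq1).1, one_div_one_div, le_antisymm h1 h2]
      ring

theorem piecewise {h : ℕ} (H : SimpleGraph (Fin h)) :
    ∃ J : Set (Set ℝ), J.Finite ∧ ⋃₀ J = Set.Ioo 0 1 ∧
      ∀ I ∈ J, I.OrdConnected ∧ I.Nontrivial ∧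
        ∃ a b : ℝ, ∀ x ∈ I, 1 - 1 / chiStar x H = a * x + b := by
  cases h with
  | succ h => exact piecewise_succ H
  | zero =>
    refine ⟨{Set.Ioo 0 1}, Set.finite_singleton _, by simp, ?_⟩
    rintro _ rfl
    refine ⟨Set.ordConnected_Ioo, ⟨1 / 3, by norm_num, 2 / 3, by norm_num, by norm_num⟩,
      0, 1, fun x hx => ?_⟩
    have : chiStar x H = 0 := by
      unfold chiStar
      simp_rw [bottle_values]
      convert Real.sInf_empty
      rw [Set.eq_empty_iff_forall_notMem]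
      rintro c ⟨k, a, m, ha, _, hall, _⟩
      obtain ⟨y, _, _, h3⟩ := hall 0
      have hN : (0 : ℝ) < ((a + (k + 1) * m : ℕ) : ℝ) := by
        have : 0 < a + (k + 1) * m := by omega
        exact_mod_cast this
      have := mul_pos hx.1 hN
      simp only [Nat.cast_zero, zero_mul] at h3
      linarith
    rw [this]
    simp

end Pool.Agent.MP_47c36b_co
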