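import Pool.Agent.MP_47c36b_co.Tiling
import Pool.Agent.MP_47c36b_co.FM

namespace Pool.Agent.MP_47c36b_co

open Finset

/-- The fractional relaxation for one position of the small part. -/
def FracSys {h k : ℕ} (H : SimpleGraph (Fin h)) {F : Type} [Field F] [LinearOrder F]
    (x α : F) (j : Fin (k + 2)) : Prop :=
  ∃ y : (Fin h → Fin (k + 2)) → F, (∀ τ, 0 ≤ y τ) ∧ (∀ τ, ¬ Valid H τ → y τ = 0) ∧
    (∀ i, ∑ τ, y τ * cnt τ i ≤ if i = j then 1 - (k + 1) * α else α) ∧ x ≤ h * ∑ τ, y τ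

/-- The fractional relaxation. -/
def Rel {h : ℕ} (H : SimpleGraph (Fin h)) (k : ℕ) {F : Type} [Field F] [LinearOrder F]
    (x α : F) : Prop :=
  1 ≤ (k + 2) * α ∧ (k + 1) * α ≤ 1 ∧ ∀ j : Fin (k + 2), FracSys H x α j

lemma fracSys_poly {h k : ℕ} (H : SimpleGraph (Fin h)) (j : Fin (k + 2)) :
    ∃ D : Set (ℚ × ℚ × ℚ), D.Finite ∧
      ∀ (F : Type) [Field F] [LinearOrder F] [IsStrictOrderedRing F] (x α : F),
        FracSys H x α j ↔ ∀ e ∈ D, 0 ≤ evl x α e := by
  classical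
  let C1 : (Fin h → Fin (k + 2)) → ((Fin h → Fin (k + 2)) → ℚ) × (ℚ × ℚ × ℚ) :=
    fun τ => (fun τ' => if τ' = τ then -1 else 0, 0)
  let C2 : (Fin h → Fin (k + 2)) → ((Fin h → Fin (k + 2)) → ℚ) × (ℚ × ℚ × ℚ) :=
    fun τ => (fun τ' => if τ' = τ then 1 else 0, 0)
  let C3 : Fin (k + 2) → ((Fin h → Fin (k + 2)) → ℚ) × (ℚ × ℚ × ℚ) :=
    fun i => (fun τ => cnt τ i, if i = j then (0, -(k + 1), 1) else (0, 1, 0))
  let C4 : ((Fin h → Fin (k + 2)) → ℚ) × (ℚ × ℚ × ℚ) := (fun _ => -h, (-1, 0, 0))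
  obtain ⟨D, hD, hDF⟩ := fm (Set.range C1 ∪ C2 '' {τ | ¬ Valid H τ} ∪ Set.range C3 ∪ {C4})
    ((((Set.finite_range _).union (Set.toFinite _)).union (Set.finite_range _)).union
      (Set.finite_singleton _))
  refine ⟨D, hD, fun F _ _ _ x α => ?_⟩
  rw [← hDF F (evl x α)]
  refine exists_congr (fun y => ?_)
  have e1 : ∀ τ, (∑ i, ((C1 τ).1 i : F) * y i ≤ evl x α (C1 τ).2) ↔ 0 ≤ y τ := by
    intro τ
    simp [C1, apply_ite (Rat.cast : ℚ → F), ite_mul]
  have e2 : ∀ τ, (∑ i, ((C2 τ).1 i : F) * y i ≤ evl x α (C2 τ).2) ↔ y τ ≤ 0 := by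
    intro τ
    simp [C2, apply_ite (Rat.cast : ℚ → F), ite_mul]
  have e3 : ∀ i, (∑ τ, ((C3 i).1 τ : F) * y τ ≤ evl x α (C3 i).2) ↔
      ∑ τ, y τ * cnt τ i ≤ if i = j then 1 - (k + 1) * α else α := by
    intro i
    have h1 : ∑ τ, ((C3 i).1 τ : F) * y τ = ∑ τ, y τ * cnt τ i :=
      Finset.sum_congr rfl (fun τ _ => by simp [C3, mul_comm])
    have h2 : evl x α (C3 i).2 = if i = j then 1 - (k + 1) * α else α := by
      simp only [C3]
      split_ifs
      · rw [evl_apply]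
        push_cast
        ring
      · simp [evl_apply]
    rw [h1, h2]
  have e4 : (∑ τ, (C4.1 τ : F) * y τ ≤ evl x α C4.2) ↔ x ≤ h * ∑ τ, y τ := by
    simp [C4, evl_apply, Finset.mul_sum]
  simp only [Set.mem_union, or_imp, forall_and, Set.forall_mem_range, Set.forall_mem_image,
    Set.mem_singleton_iff, forall_eq, e1, e2, e3, e4, Set.mem_ofPred_eq]
  constructor
  · rintro ⟨h1, h2, h3, h4⟩
    exact ⟨⟨⟨h1, fun τ hτ => (h2 τ hτ).le⟩, h3⟩, h4⟩
  · rintro ⟨⟨⟨h1, h2⟩, h3⟩, h4⟩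
    exact ⟨h1, fun τ hτ => le_antisymm (h2 hτ) (h1 τ), h3, h4⟩

lemma rel_poly {h : ℕ} (H : SimpleGraph (Fin h)) (k : ℕ) :
    ∃ D : Set (ℚ × ℚ × ℚ), D.Finite ∧
      ∀ (F : Type) [Field F] [LinearOrder F] [IsStrictOrderedRing F] (x α : F),
        Rel H k x α ↔ ∀ e ∈ D, 0 ≤ evl x α e := by
  choose D hD hDF using fun j : Fin (k + 2) => fracSys_poly H j
  refine ⟨insert (0, (k : ℚ) + 2, -1) (insert (0, -((k : ℚ) + 1), 1) (⋃ j, D j)),
    ((Set.finite_iUnion hD).insert _).insert _, fun F _ _ _ x α => ?_⟩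
  rw [Set.forall_mem_insert, Set.forall_mem_insert, Rel]
  refine and_congr ?_ (and_congr ?_ ?_)
  · rw [evl_apply]
    push_cast
    constructor <;> intro _ <;> linarith
  · rw [evl_apply]
    push_cast
    constructor <;> intro _ <;> linarith
  · simp only [hDF, Set.mem_iUnion, forall_exists_index]
    exact ⟨fun h e j he => h j e he, fun h j e he => h e j he⟩

lemma rel_down {h : ℕ} {H : SimpleGraph (Fin h)} {k : ℕ} {x α β : ℝ} (hR : Rel H k x α)
    (h1 : 1 ≤ (k + 2) * β) (h2 : β ≤ α) : Rel H k x β := by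
  obtain ⟨hα1, hα2, hall⟩ := hR
  have hk : (0 : ℝ) < k + 2 := by positivity
  have hk1 : (0 : ℝ) < k + 1 := by positivity
  refine ⟨h1, by nlinarith, fun j => ?_⟩
  rcases h2.eq_or_lt with rfl | hlt
  · exact hall j
  choose y hy0 hy1 hy2 hy3 using hall
  have hδ : 0 < (k + 2) * α - 1 := by nlinarith
  set θ := ((k + 2) * β - 1) / ((k + 2) * α - 1) with hθ
  have hθ0 : 0 ≤ θ := div_nonneg (by linarith) hδ.le
  have hθ1 : θ ≤ 1 := by
    rw [hθ, div_le_one hδ]
    nlinarith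
  have hθδ : θ * ((k + 2) * α - 1) = (k + 2) * β - 1 := div_mul_cancel₀ _ hδ.ne'
  set c := (1 - θ) / (k + 2) with hc
  have hc0 : 0 ≤ c := div_nonneg (by linarith) hk.le
  have hck : c * (k + 2) = 1 - θ := div_mul_cancel₀ _ hk.ne'
  refine ⟨fun τ => θ * y j τ + c * ∑ j', y j' τ, fun τ => ?_, fun τ hτ => ?_, fun i => ?_, ?_⟩
  · exact add_nonneg (mul_nonneg hθ0 (hy0 j τ))
      (mul_nonneg hc0 (Finset.sum_nonneg (fun j' _ => hy0 j' τ)))
  · simp [fun j' => hy1 j' τ hτ]
  · have e1 : ∑ τ, (θ * y j τ + c * ∑ j', y j' τ) * cnt τ i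
        = θ * ∑ τ, y j τ * cnt τ i + c * ∑ j', ∑ τ, y j' τ * cnt τ i := by
      rw [Finset.sum_comm (f := fun j' τ => y j' τ * cnt τ i), Finset.mul_sum, Finset.mul_sum,
        ← Finset.sum_add_distrib]
      refine Finset.sum_congr rfl (fun τ _ => ?_)
      rw [← Finset.sum_mul]
      ring
    have e2 : ∑ j', ∑ τ, y j' τ * cnt τ i ≤ 1 := by
      refine (Finset.sum_le_sum (fun j' _ => hy2 j' i)).trans (le_of_eq ?_)
      rw [← Finset.add_sum_erase _ _ (Finset.mem_univ i), if_pos rfl,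
        Finset.sum_congr rfl (g := fun _ => α)
          (fun j' hj' => if_neg (Finset.ne_of_mem_erase hj').symm)]
      simp
    rw [e1]
    have e3 := mul_le_mul_of_nonneg_left (hy2 j i) hθ0
    have e4 := mul_le_mul_of_nonneg_left e2 hc0
    have e5 : c = β - θ * α := by
      have : c * (k + 2) = (β - θ * α) * (k + 2) := by linarith
      exact mul_right_cancel₀ hk.ne' this
    split_ifs at e3 ⊢
    · nlinarith
    · nlinarith
  · have e1 : (h : ℝ) * ∑ τ, (θ * y j τ + c * ∑ j', y j' τ)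
        = θ * (h * ∑ τ, y j τ) + c * ∑ j', (h * ∑ τ, y j' τ) := by
      rw [Finset.sum_add_distrib, ← Finset.mul_sum, ← Finset.mul_sum, ← Finset.mul_sum,
        Finset.sum_comm]
      ring
    have e2 : (k + 2) * x ≤ ∑ j', ((h : ℝ) * ∑ τ, y j' τ) := by
      refine le_trans (le_of_eq ?_) (Finset.sum_le_sum (fun j' _ => hy3 j'))
      simp
    rw [e1]
    have e3 := mul_le_mul_of_nonneg_left (hy3 j) hθ0
    have e4 := mul_le_mul_of_nonneg_left e2 hc0
    have e5 : c * ((k + 2) * x) = (1 - θ) * x := by rw [← mul_assoc, hck]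
    linarith

lemma rel_of_int {h : ℕ} {H : SimpleGraph (Fin h)} {k a m : ℕ} {x : ℝ} (ha : 0 < a)
    (ham : a ≤ m) (hall : ∀ j : Fin (k + 2), IntSys H x (a + (k + 1) * m) (szN a m j)) :
    Rel H k x ((m : ℝ) / ((a + (k + 1) * m : ℕ) : ℝ)) := by
  have ha' : (0 : ℝ) < a := by exact_mod_cast ha
  have ham' : (a : ℝ) ≤ m := by exact_mod_cast ham
  set N : ℝ := ((a + (k + 1) * m : ℕ) : ℝ) with hN
  have hN' : N = a + (k + 1) * m := by
    rw [hN]
    push_cast
    ring
  have hN0 : 0 < N := by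
    rw [hN']
    positivity
  refine ⟨?_, ?_, fun j => ?_⟩
  · rw [← mul_div_assoc, le_div_iff₀ hN0]
    linarith
  · rw [← mul_div_assoc, div_le_one hN0]
    linarith
  · obtain ⟨y, hy0, hy1, hy2⟩ := hall j
    refine ⟨fun τ => y τ / N, fun τ => by positivity, fun τ hτ => by simp [hy0 τ hτ],
      fun i => ?_, ?_⟩
    · have e1 : ∑ τ, (y τ : ℝ) / N * cnt τ i = (∑ τ, y τ * cnt τ i : ℕ) / N := by
        push_cast
        rw [Finset.sum_div]
        exact Finset.sum_congr rfl (fun τ _ => by ring)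
      have e2 : ((∑ τ, y τ * cnt τ i : ℕ) : ℝ) ≤ szN a m j i := by exact_mod_cast hy1 i
      rw [e1]
      refine (div_le_div_of_nonneg_right e2 hN0.le).trans (le_of_eq ?_)
      unfold szN
      split_ifs
      · field_simp
        linarith
      · rfl
    · rw [← Finset.sum_div, ← mul_div_assoc, le_div_iff₀ hN0]
      exact hy2

lemma exists_common_den {ι : Type} [Fintype ι] (q : ι → ℚ) (hq : ∀ i, 0 ≤ q i) :
    ∃ M : ℕ, 0 < M ∧ ∃ z : ι → ℕ, ∀ i, (z i : ℚ) = M * q i := by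
  classical
  refine ⟨∏ i, (q i).den, Finset.prod_pos (fun i _ => (q i).pos), ?_⟩
  have : ∀ i, ∃ z : ℕ, (z : ℚ) = ((∏ i, (q i).den : ℕ) : ℚ) * q i := by
    intro i
    refine ⟨(∏ i' ∈ univ.erase i, (q i').den) * (q i).num.toNat, ?_⟩
    rw [← Finset.prod_erase_mul _ _ (Finset.mem_univ i)]
    have h1 : (((q i).num.toNat : ℕ) : ℚ) = ((q i).num : ℚ) := by
      rw [← Int.cast_natCast, Int.toNat_of_nonneg (Rat.num_nonneg.2 (hq i))]
    rw [Nat.cast_mul, Nat.cast_mul, h1, mul_assoc, Rat.den_mul_eq_num]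
  choose z hz using this
  exact ⟨z, hz⟩

lemma int_of_rel {h : ℕ} {H : SimpleGraph (Fin h)} {k : ℕ} {x : ℝ} {α : ℚ}
    (hR : Rel H k x (α : ℝ)) (hlt : (k + 1) * α < 1) :
    ∃ a m : ℕ, 0 < a ∧ a ≤ m ∧
      (∀ j : Fin (k + 2), IntSys H x (a + (k + 1) * m) (szN a m j)) ∧
      ((a + (k + 1) * m : ℕ) : ℝ) / m = 1 / α := by
  obtain ⟨D, hD, hDF⟩ := rel_poly H k
  obtain ⟨x', hx', hD'⟩ := exists_rat_right hD x α ((hDF ℝ x α).1 hR)
  obtain ⟨h1, _, hall⟩ := (hDF ℚ x' α).2 hD'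
  choose y hy0 hy1 hy2 hy3 using hall
  have hk : (0 : ℚ) < k + 2 := by positivity
  have hα : 0 < α := by
    by_contra hle
    nlinarith [mul_nonneg hk.le (neg_nonneg.2 (not_lt.1 hle))]
  obtain ⟨M, hM, z, hz⟩ := exists_common_den
    (fun o : Bool ⊕ (Fin (k + 2) × (Fin h → Fin (k + 2))) =>
      Sum.elim (fun b => if b then α else 1 - (k + 1) * α) (fun q => y q.1 q.2) o) (by
      rintro (b | q)
      · cases b
        · simp only [Sum.elim_inl, Bool.false_eq_true, if_false]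
          linarith
        · simpa using hα.le
      · exact hy0 _ _)
  have hm : (z (Sum.inl true) : ℚ) = M * α := by simpa using hz (Sum.inl true)
  have ha : (z (Sum.inl false) : ℚ) = M * (1 - (k + 1) * α) := by simpa using hz (Sum.inl false)
  have hzy : ∀ j τ, (z (Sum.inr (j, τ)) : ℚ) = M * y j τ := fun j τ => hz (Sum.inr (j, τ))
  have hM' : (0 : ℚ) < M := by exact_mod_cast hM
  have hN : z (Sum.inl false) + (k + 1) * z (Sum.inl true) = M := by
    have : ((z (Sum.inl false) + (k + 1) * z (Sum.inl true) : ℕ) : ℚ) = M := by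
      push_cast
      rw [hm, ha]
      ring
    exact_mod_cast this
  refine ⟨z (Sum.inl false), z (Sum.inl true), ?_, ?_, fun j => ?_, ?_⟩
  · have : (0 : ℚ) < z (Sum.inl false) := by
      rw [ha]
      exact mul_pos hM' (by linarith)
    exact_mod_cast this
  · have : (z (Sum.inl false) : ℚ) ≤ z (Sum.inl true) := by
      rw [ha, hm]
      exact mul_le_mul_of_nonneg_left (by linarith) hM'.le
    exact_mod_cast this
  · rw [hN]
    refine ⟨fun τ => z (Sum.inr (j, τ)), fun τ hτ => ?_, fun i => ?_, ?_⟩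
    · have := hzy j τ
      rw [hy1 j τ hτ, mul_zero] at this
      exact_mod_cast this
    · have e1 : ((∑ τ, z (Sum.inr (j, τ)) * cnt τ i : ℕ) : ℚ) = M * ∑ τ, y j τ * cnt τ i := by
        push_cast
        rw [Finset.mul_sum]
        exact Finset.sum_congr rfl (fun τ _ => by rw [hzy, mul_assoc])
      have e2 : ((szN (z (Sum.inl false)) (z (Sum.inl true)) j i : ℕ) : ℚ)
          = M * if i = j then 1 - (k + 1) * α else α := by
        unfold szN
        split_ifs
        · exact ha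
        · exact hm
      have e3 := mul_le_mul_of_nonneg_left (hy2 j i) hM'.le
      rw [← e1, ← e2] at e3
      exact_mod_cast e3
    · have e1 : x' * M ≤ h * ∑ τ, (z (Sum.inr (j, τ)) : ℚ) := by
        simp_rw [hzy]
        rw [← Finset.mul_sum]
        nlinarith [mul_le_mul_of_nonneg_left (hy3 j) hM'.le]
      have e2 : (x' : ℝ) * M ≤ h * ∑ τ, (z (Sum.inr (j, τ)) : ℝ) := by exact_mod_cast e1
      have e3 : (0 : ℝ) ≤ M := Nat.cast_nonneg M
      nlinarith
  · rw [hN]
    have hm' : (z (Sum.inl true) : ℝ) = M * α := by exact_mod_cast hm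
    have hM'' : (M : ℝ) ≠ 0 := by exact_mod_cast hM.ne'
    have hα' : (α : ℝ) ≠ 0 := by exact_mod_cast hα.ne'
    rw [hm']
    field_simp

/-- The complete graph on `2h` vertices has a perfect tiling. -/
lemma rel_base {h : ℕ} (H : SimpleGraph (Fin (h + 1))) {x : ℝ} (hx : x ≤ 1) :
    Rel H (2 * h) x (1 / (2 * h + 2)) := by
  classical
  have hall : ∀ j : Fin (2 * h + 2), IntSys H x (1 + (2 * h + 1) * 1) (szN 1 1 j) := by
    intro j
    let τ : Fin 2 → Fin (h + 1) → Fin (2 * h + 2) := fun b a => ⟨2 * a + b, by omega⟩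
    refine ⟨fun t => (univ.filter (fun b => τ b = t)).card, fun t ht => ?_, fun i => ?_, ?_⟩
    · rw [Finset.card_eq_zero, Finset.filter_eq_empty_iff]
      rintro b _ rfl
      refine ht ⟨fun a a' haa => ?_, fun a a' haa he => haa.ne ?_⟩
      · simp only [τ, Fin.mk_le_mk]
        have : (a : ℕ) ≤ a' := haa
        omega
      · simp only [τ, Fin.mk.injEq] at he
        exact Fin.ext (by omega)
    · rw [sum_card_filter_mul univ τ (fun t => cnt t i)]
      unfold cnt
      rw [← Finset.card_sigma]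
      have : szN 1 1 j i = 1 := by simp [szN]
      rw [this, Finset.card_le_one]
      rintro ⟨b, a⟩ hq ⟨b', a'⟩ hq'
      simp only [Finset.mem_sigma, Finset.mem_univ, Finset.mem_filter, true_and, τ] at hq hq'
      have h1 := congrArg Fin.val (hq.trans hq'.symm)
      simp only at h1
      have hb : b = b' := Fin.ext (by omega)
      have ha : a = a' := Fin.ext (by omega)
      rw [hb, ha]
    · have h2 := sum_card_filter_mul univ τ (fun _ => 1)
      simp only [mul_one, Finset.sum_const, smul_eq_mul, Finset.card_univ,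
        Fintype.card_fin] at h2
      rw [← Nat.cast_sum, h2]
      push_cast
      have : (0 : ℝ) ≤ h := Nat.cast_nonneg h
      nlinarith
  have := rel_of_int (k := 2 * h) Nat.one_pos le_rfl hall
  convert this using 1
  push_cast
  ring

lemma exists_top_all {h : ℕ} (H : SimpleGraph (Fin h)) (K : ℕ) :
    ∃ g : ℝ → ℝ, PW g ∧ ∀ x, ((∃ k, Rel H k x (g x)) ∨ g x = 0) ∧
      ∀ k < K, ∀ α, Rel H k x α → α ≤ g x := by
  induction K with
  | zero => exact ⟨fun _ => 0, PW.const 0, fun x => ⟨Or.inr rfl, by simp⟩⟩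
  | succ K ih =>
    obtain ⟨g, hg, hgx⟩ := ih
    obtain ⟨D, hD, hDF⟩ := rel_poly H K
    have hK : (0 : ℝ) < K + 2 := by positivity
    obtain ⟨g', hg', hgx'⟩ := exists_fibre_top hD (1 / (K + 2)) 1 (fun x α hα => by
        have h1 := ((hDF ℝ x α).2 hα).2.1
        have h2 := ((hDF ℝ x α).2 hα).1
        have : (0 : ℝ) ≤ K := Nat.cast_nonneg K
        have h3 : 0 < α := by
          by_contra hle
          nlinarith [mul_nonneg hK.le (neg_nonneg.2 (not_lt.1 hle))]
        nlinarith) (fun x α hα => by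
        have h1 := (hDF ℝ x α).2 hα
        refine (hDF ℝ x _).1 (rel_down h1 (by field_simp; exact le_rfl) ?_)
        rw [div_le_iff₀ hK]
        linarith [h1.1])
    refine ⟨fun x => max (g x) (g' x), hg.max hg', fun x => ⟨?_, fun k hk α hα => ?_⟩⟩
    · rcases le_total (g x) (g' x) with hle | hle
      · simp only [max_eq_right hle]
        rcases (hgx' x).1 with h1 | h1
        · exact Or.inl ⟨K, (hDF ℝ x _).2 h1⟩
        · exact Or.inr h1
      · simp only [max_eq_left hle]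
        exact (hgx x).1
    · rcases Nat.lt_succ_iff_lt_or_eq.1 hk with hk | rfl
      · exact ((hgx x).2 k hk α hα).trans (le_max_left _ _)
      · exact ((hgx' x).2 α ((hDF ℝ x α).1 hα)).trans (le_max_right _ _)

lemma chiStar_eq {h : ℕ} (H : SimpleGraph (Fin h)) {x β : ℝ} (h1 : ∃ k, Rel H k x β)
    (h2 : ∀ k α, Rel H k x α → α ≤ β) : chiStar x H = 1 / β := by
  obtain ⟨k, hk⟩ := h1
  have hk2 : (0 : ℝ) < k + 2 := by positivity
  have hβ : 0 < β := by
    by_contra hle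
    nlinarith [mul_nonneg hk2.le (neg_nonneg.2 (not_lt.1 hle)), hk.1]
  unfold chiStar
  simp_rw [bottle_values]
  have hmem : ∀ α : ℚ, 1 ≤ (k + 2) * α → (α : ℝ) ≤ β → (k + 1) * α < 1 →
      1 / (α : ℝ) ∈ {c : ℝ | ∃ k a m : ℕ, 0 < a ∧ a ≤ m ∧
        (∀ j : Fin (k + 2), IntSys H x (a + (k + 1) * m) (szN a m j)) ∧
        ((a + (k + 1) * m : ℕ) : ℝ) / m = c} := by
    intro α hα1 hα2 hα3
    exact ⟨k, int_of_rel (rel_down hk (by exact_mod_cast hα1) hα2) hα3⟩
  have hk2q : (0 : ℚ) < k + 2 := by positivity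
  have hbase := hmem (1 / (k + 2)) (by field_simp; exact le_rfl) (by
    push_cast
    rw [div_le_iff₀ hk2]
    linarith [hk.1]) (by
    rw [← mul_div_assoc, div_lt_one hk2q]
    linarith)
  refine csInf_eq_of_forall_ge_of_forall_gt_exists_lt ⟨_, hbase⟩ ?_ ?_
  · rintro c ⟨k', a, m, ha, ham, hall, rfl⟩
    have h3 := h2 k' _ (rel_of_int ha ham hall)
    have hm : (0 : ℝ) < m := by exact_mod_cast ha.trans_le ham
    have hN : (0 : ℝ) < ((a + (k' + 1) * m : ℕ) : ℝ) := by
      have : 0 < a + (k' + 1) * m := by omega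
      exact_mod_cast this
    rw [div_le_iff₀ hN] at h3
    rw [div_le_div_iff₀ hβ hm]
    linarith
  · intro w hw
    have hw0 : 0 < w := (one_div_pos.2 hβ).trans hw
    rcases hk.1.eq_or_lt with heq | hlt
    · refine ⟨_, hbase, ?_⟩
      have : β = 1 / (k + 2) := by
        field_simp
        linarith
      rw [this] at hw
      push_cast
      exact hw
    · have h3 : max (1 / w) (1 / (k + 2)) < β := by
        refine max_lt ?_ ?_
        · rwa [one_div_lt hw0 hβ]
        · rw [div_lt_iff₀ hk2]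
          linarith
      obtain ⟨α, hα1, hα2⟩ := exists_rat_btwn h3
      have hα3 : 1 / w < α := (le_max_left _ _).trans_lt hα1
      have hα4 : 1 / ((k : ℝ) + 2) < α := (le_max_right _ _).trans_lt hα1
      have hα0 : (0 : ℝ) < α := (one_div_pos.2 hw0).trans hα3
      refine ⟨_, hmem α ?_ hα2.le ?_, ?_⟩
      · rw [div_lt_iff₀ hk2] at hα4
        have : (1 : ℝ) ≤ (k + 2) * α := by linarith
        exact_mod_cast this
      · have hk1 : (0 : ℝ) < k + 1 := by positivity
        have : ((k : ℝ) + 1) * α < 1 := by nlinarith [hk.2.1]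
        exact_mod_cast this
      · rwa [one_div_lt hα0 hw0]

/-- The threshold function agrees on `(0,1)` with a piecewise affine function, which is the top
of a closed set. -/
lemma exists_pw {h : ℕ} (H : SimpleGraph (Fin (h + 1))) :
    ∃ g : ℝ → ℝ, PW g ∧ ∀ x ≤ 1, chiStar x H = 1 / g x ∧ (∃ k, Rel H k x (g x)) ∧
      ∀ k α, Rel H k x α → α ≤ g x := by
  obtain ⟨g, hg, hgx⟩ := exists_top_all H (2 * h + 1)
  refine ⟨g, hg, fun x hx => ?_⟩
  have h0 := (hgx x).2 (2 * h) (by omega) _ (rel_base H hx)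
  have hh : (0 : ℝ) < 2 * h + 2 := by positivity
  have h1 : ∃ k, Rel H k x (g x) := by
    rcases (hgx x).1 with h1 | h1
    · exact h1
    · rw [h1] at h0
      exact absurd h0 (not_le.2 (one_div_pos.2 hh))
  have h2 : ∀ k α, Rel H k x α → α ≤ g x := by
    intro k α hα
    rcases lt_or_ge k (2 * h + 1) with hk | hk
    · exact (hgx x).2 k hk α hα
    · refine le_trans ?_ h0
      have hk' : (2 * h + 1 : ℝ) ≤ k := by exact_mod_cast hk
      have hk2 : (0 : ℝ) < k + 2 := by positivity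
      have hα0 : 0 < α := by
        by_contra hle
        nlinarith [mul_nonneg hk2.le (neg_nonneg.2 (not_lt.1 hle)), hα.1]
      rw [le_div_iff₀ hh]
      nlinarith [hα.2.1]
  exact ⟨chiStar_eq H h1 h2, h1, h2⟩

end Pool.Agent.MP_47c36b_co
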