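import Pool.Agent.MP_47c36b_co.Defs

namespace Pool.Agent.MP_47c36b_co

open Finset

/-- Size of a fibre. -/
def cnt {h k : ℕ} (τ : Fin h → Fin k) (i : Fin k) : ℕ := (univ.filter (fun a => τ a = i)).card

/-- The types of copies of `H` in an ordered complete multipartite graph. -/
def Valid {h k : ℕ} (H : SimpleGraph (Fin h)) (τ : Fin h → Fin k) : Prop :=
  Monotone τ ∧ ∀ a b, H.Adj a b → τ a ≠ τ b

/-- The integer system describing tilings. -/
def IntSys {h k : ℕ} (H : SimpleGraph (Fin h)) (x : ℝ) (n : ℕ) (s : Fin k → ℕ) : Prop :=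
  ∃ y : (Fin h → Fin k) → ℕ, (∀ τ, ¬ Valid H τ → y τ = 0) ∧
    (∀ i, ∑ τ, y τ * cnt τ i ≤ s i) ∧ x * n ≤ h * ∑ τ, (y τ : ℝ)

lemma exists_fibre_inj {A B K : Type} [Fintype A] [Fintype B] [DecidableEq K] (f : A → K)
    (g : B → K)
    (h : ∀ i, (univ.filter (fun a => f a = i)).card ≤ (univ.filter (fun b => g b = i)).card) :
    ∃ Ψ : A → B, Function.Injective Ψ ∧ ∀ a, g (Ψ a) = f a := by
  have h1 : ∀ i, Nonempty ({a // f a = i} ↪ {b // g b = i}) := fun i =>
    Function.Embedding.nonempty_of_card_le (by simpa [Fintype.card_subtype] using h i)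
  let E := fun i => (h1 i).some
  let Ψ : A → B := fun a => (E (f a) ⟨a, rfl⟩).1
  have h2 : ∀ a, g (Ψ a) = f a := fun a => (E (f a) ⟨a, rfl⟩).2
  have key : ∀ i (a : {a // f a = i}), Ψ a.1 = (E i a).1 := by
    rintro i ⟨a, rfl⟩
    rfl
  refine ⟨Ψ, fun a a' haa => ?_, h2⟩
  have h3 : f a' = f a := by rw [← h2 a', ← h2 a, haa]
  have h4 := key (f a) ⟨a, rfl⟩
  have h5 := key (f a) ⟨a', h3⟩
  simp only at h4 h5
  have h6 : E (f a) ⟨a, rfl⟩ = E (f a) ⟨a', h3⟩ := Subtype.ext (by rw [← h4, ← h5, haa])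
  exact congrArg Subtype.val ((E (f a)).injective h6)

lemma sum_card_filter_mul {A B : Type} [Fintype B] [DecidableEq B] (T : Finset A) (g : A → B)
    (f : B → ℕ) : ∑ τ, (T.filter (fun φ => g φ = τ)).card * f τ = ∑ φ ∈ T, f (g φ) := by
  rw [← Finset.sum_fiberwise T g (fun φ => f (g φ))]
  refine Finset.sum_congr rfl (fun τ _ => ?_)
  rw [Finset.sum_congr rfl (g := fun _ => f τ)]
  · simp
  · intro φ hφ
    rw [(Finset.mem_filter.1 hφ).2]

lemma tiling_iff {h n k : ℕ} (x : ℝ) (H : SimpleGraph (Fin h)) (G : SimpleGraph (Fin n))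
    (p : Fin n → Fin k) (hp : Monotone p) (hG : ∀ u v, G.Adj u v ↔ p u ≠ p v) :
    HasTiling x H G ↔ IntSys H x n (cnt p) := by
  classical
  constructor
  · rintro ⟨T, hT, hdis, hcov⟩
    refine ⟨fun τ => (T.filter (fun φ => p ∘ φ = τ)).card, fun τ hτ => ?_, fun i => ?_, ?_⟩
    · rw [Finset.card_eq_zero, Finset.filter_eq_empty_iff]
      rintro φ hφ rfl
      exact hτ ⟨hp.comp (hT φ hφ).1.monotone, fun a b hab => (hG _ _).1 ((hT φ hφ).2 a b hab)⟩
    · rw [sum_card_filter_mul T (fun φ => p ∘ φ) (fun τ => cnt τ i)]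
      unfold cnt
      rw [← Finset.card_sigma]
      refine Finset.card_le_card_of_injOn (fun q => q.1 q.2) ?_ ?_
      · rintro ⟨φ, a⟩ hq
        simp only [Finset.coe_sigma, Set.mem_sigma_iff, Finset.mem_coe, Finset.mem_filter,
          Finset.mem_univ, true_and, Function.comp_apply] at hq ⊢
        exact hq.2
      · rintro ⟨φ, a⟩ hq ⟨ψ, b⟩ hq' hab
        simp only [Finset.coe_sigma, Set.mem_sigma_iff, Finset.mem_coe] at hq hq' hab
        have hφψ : φ = ψ := by
          by_contra hne
          exact Set.disjoint_left.1 (hdis φ hq.1 ψ hq'.1 hne) ⟨a, rfl⟩ ⟨b, hab.symm⟩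
        subst hφψ
        rw [(hT φ hq.1).1.injective hab]
    · refine hcov.trans ?_
      have h1 : (⋃ φ ∈ T, Set.range φ) = ↑(T.biUnion (fun φ => univ.image φ)) := by
        ext u
        simp
      have h2 := sum_card_filter_mul T (fun φ => p ∘ φ) (fun _ => 1)
      simp only [mul_one, Finset.sum_const, smul_eq_mul] at h2
      rw [h1, Set.ncard_coe_finset, ← Nat.cast_sum, h2, ← Nat.cast_mul, Nat.cast_le]
      refine Finset.card_biUnion_le.trans ?_
      rw [mul_comm, ← smul_eq_mul, ← Finset.sum_const]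
      exact Finset.sum_le_sum (fun φ _ => Finset.card_image_le.trans (by simp))
  · rintro ⟨y, hy0, hy1, hy2⟩
    obtain ⟨Ψ, hΨ, hΨp⟩ := exists_fibre_inj
      (fun q : (Σ τ : Fin h → Fin k, Fin (y τ)) × Fin h => q.1.1 q.2) p (fun i => by
        refine le_trans (le_of_eq ?_) (hy1 i)
        rw [Finset.card_filter, Fintype.sum_prod_type, Fintype.sum_sigma]
        refine Finset.sum_congr rfl (fun τ _ => ?_)
        simp [cnt])
    let φ : (Σ τ : Fin h → Fin k, Fin (y τ)) → Fin h → Fin n :=
      fun j => (fun a => Ψ (j, a)) ∘ Tuple.sort (fun a => Ψ (j, a))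
    have hval : ∀ j : (Σ τ : Fin h → Fin k, Fin (y τ)), Valid H j.1 := by
      rintro ⟨τ, b⟩
      by_contra hne
      have h1 := b.2
      have h2 := hy0 τ hne
      omega
    have hmono : ∀ j, StrictMono (φ j) := fun j =>
      (Tuple.monotone_sort _).strictMono_of_injective
        ((hΨ.comp (Prod.mk_right_injective j)).comp (Equiv.injective _))
    have hrange : ∀ j, Set.range (φ j) = Set.range (fun a => Ψ (j, a)) := fun j =>
      (Equiv.surjective _).range_comp _
    have hpφ : ∀ j a, p (φ j a) = j.1 a := by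
      intro j a
      have h1 : Monotone (j.1 ∘ Tuple.sort (fun a => Ψ (j, a))) := by
        have : j.1 ∘ Tuple.sort (fun a => Ψ (j, a)) = p ∘ φ j := by
          funext b
          simp [φ, hΨp]
        rw [this]
        exact hp.comp (hmono j).monotone
      have h2 : Monotone (j.1 ∘ (1 : Equiv.Perm (Fin h))) := (hval j).1
      have h3 := congrFun (Tuple.unique_monotone h1 h2) a
      simp only [φ, Function.comp_apply, hΨp] at h3 ⊢
      exact h3
    refine ⟨univ.image φ, ?_, ?_, ?_⟩
    · intro ψ hψ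
      obtain ⟨j, _, rfl⟩ := Finset.mem_image.1 hψ
      refine ⟨hmono j, fun a b hab => ?_⟩
      rw [hG, hpφ, hpφ]
      exact (hval j).2 a b hab
    · intro ψ hψ ψ' hψ' hne
      obtain ⟨j, _, rfl⟩ := Finset.mem_image.1 hψ
      obtain ⟨j', _, rfl⟩ := Finset.mem_image.1 hψ'
      rw [hrange, hrange, Set.disjoint_left]
      rintro _ ⟨a, rfl⟩ ⟨b, hb⟩
      have := (Prod.ext_iff.1 (hΨ hb)).1
      exact hne (congrArg φ this.symm)
    · refine hy2.trans (le_of_eq ?_)
      have h1 : (⋃ ψ ∈ univ.image φ, Set.range ψ) = Set.range Ψ := by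
        ext u
        simp only [Finset.mem_image, Finset.mem_univ, true_and, Set.mem_iUnion, exists_prop,
          exists_exists_eq_and, hrange]
        simp only [Set.mem_range, Prod.exists]
      rw [h1, Set.ncard_range_of_injective hΨ]
      simp [mul_comm]

/-- Part sizes with the small part in position `j`. -/
def szN {k : ℕ} (a m : ℕ) (j : Fin k) : Fin k → ℕ := fun i => if i = j then a else m

lemma ncard_eq_cnt {n k : ℕ} (p : Fin n → Fin k) (i : Fin k) : (p ⁻¹' {i}).ncard = cnt p i := by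
  unfold cnt
  rw [← Set.ncard_coe_finset]
  congr 1
  ext u
  simp

lemma cnt_comp {n k : ℕ} (p : Fin n → Fin k) (σ : Equiv.Perm (Fin k)) (φ : Fin n ≃ Fin n)
    (i : Fin k) : cnt (fun t => σ (p (φ.symm t))) i = cnt p (σ.symm i) := by
  unfold cnt
  refine Finset.card_bijective φ.symm φ.symm.bijective (fun t => ?_)
  simp [Equiv.eq_symm_apply]

lemma sum_cnt {n k : ℕ} (p : Fin n → Fin k) : ∑ i, cnt p i = n := by
  unfold cnt
  rw [← Finset.card_eq_sum_card_fiberwise (s := univ) (t := univ) (fun _ _ => Finset.mem_univ _)]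
  simp

lemma labelling_iff {h n k : ℕ} (x : ℝ) (H : SimpleGraph (Fin h)) (B : SimpleGraph (Fin n))
    (part : Fin n → Fin (k + 2)) (hB : ∀ u v, B.Adj u v ↔ part u ≠ part v) {a m : ℕ}
    (hs : cnt part = szN a m 0) :
    (∀ (σ : Equiv.Perm (Fin (k + 2))) (φ : Fin n ≃ Fin n),
      (∀ u v, σ (part u) < σ (part v) → φ u < φ v) → HasTiling x H (B.map φ)) ↔
    ∀ j : Fin (k + 2), IntSys H x n (szN a m j) := by
  have key : ∀ (σ : Equiv.Perm (Fin (k + 2))) (φ : Fin n ≃ Fin n),
      (∀ u v, σ (part u) < σ (part v) → φ u < φ v) →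
      (HasTiling x H (B.map φ) ↔ IntSys H x n (szN a m (σ 0))) := by
    intro σ φ hφ
    rw [tiling_iff x H _ (fun t => σ (part (φ.symm t)))]
    · have : cnt (fun t => σ (part (φ.symm t))) = szN a m (σ 0) := by
        funext i
        rw [cnt_comp, hs]
        simp [szN, Equiv.symm_apply_eq]
      rw [this]
    · intro s t hst
      by_contra hlt
      have := hφ _ _ (not_le.1 hlt)
      simp only [Equiv.apply_symm_apply] at this
      exact absurd hst (not_le.2 this)
    · intro u v
      obtain ⟨u, rfl⟩ := φ.surjective u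
      obtain ⟨v, rfl⟩ := φ.surjective v
      have := SimpleGraph.map_adj_apply (G := B) (f := φ.toEmbedding) (a := u) (b := v)
      simp only [Equiv.coe_toEmbedding] at this
      rw [this, hB]
      simp
  constructor
  · intro hall j
    let σ : Equiv.Perm (Fin (k + 2)) := Equiv.swap 0 j
    let φ : Fin n ≃ Fin n := (Tuple.sort (σ ∘ part)).symm
    have hφ : ∀ u v, σ (part u) < σ (part v) → φ u < φ v := by
      intro u v huv
      by_contra hle
      have := Tuple.monotone_sort (σ ∘ part) (not_lt.1 hle)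
      simp only [φ, Function.comp_apply, Equiv.apply_symm_apply] at this
      exact absurd huv (not_lt.2 this)
    have := (key σ φ hφ).1 (hall σ φ hφ)
    simpa [σ] using this
  · intro hall σ φ hφ
    exact (key σ φ hφ).2 (hall _)

lemma sum_szN {k : ℕ} (a m : ℕ) (j : Fin (k + 2)) : ∑ i, szN a m j i = a + (k + 1) * m := by
  unfold szN
  rw [← Finset.add_sum_erase _ _ (Finset.mem_univ j), if_pos rfl,
    Finset.sum_congr rfl (g := fun _ => m) (fun i hi => if_neg (Finset.ne_of_mem_erase hi))]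
  simp

lemma chiCr_eq {n k : ℕ} (B : SimpleGraph (Fin n)) (part : Fin n → Fin (k + 2))
    (hsurj : Function.Surjective part) (hB : ∀ u v, B.Adj u v ↔ part u ≠ part v) {a m : ℕ}
    (hs : cnt part = szN a m 0) (ham : a ≤ m) (hm : 0 < m) : chiCr B = n / m := by
  let C₀ : B.Coloring (Fin (k + 2)) := SimpleGraph.Coloring.mk part (fun h => (hB _ _).1 h)
  obtain ⟨rep, hrep⟩ := hsurj.hasRightInverse
  have hχ : B.chromaticNumber = (k + 2 : ℕ) := by
    refine le_antisymm (SimpleGraph.Colorable.chromaticNumber_le ⟨C₀⟩) ?_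
    refine SimpleGraph.le_chromaticNumber_of_pairwise_adj (ι := Fin (k + 2)) (by simp) rep ?_
    intro i j hij
    rw [hB, hrep, hrep]
    exact hij
  have hσ : sigma B = a := by
    unfold sigma
    have hχ' : B.chromaticNumber.toNat = k + 2 := by rw [hχ]; rfl
    rw [hχ']
    refine IsLeast.csInf_eq ⟨⟨C₀, 0, ?_⟩, ?_⟩
    · have : C₀.colorClass 0 = part ⁻¹' {0} := rfl
      rw [this, ncard_eq_cnt, hs]
      simp [szN]
    · rintro s ⟨C, c, rfl⟩
      have hinj : Function.Injective (fun i => C (rep i)) := by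
        intro i j hij
        by_contra hne
        exact C.valid ((hB _ _).2 (by rw [hrep, hrep]; exact hne)) hij
      have hbij := Finite.injective_iff_surjective.1 hinj
      obtain ⟨i, rfl⟩ := hbij c
      have h1 : part ⁻¹' {i} ⊆ C.colorClass (C (rep i)) := by
        intro u hu
        obtain ⟨j, hj⟩ := hbij (C u)
        have h2 : part (rep j) = part u := by
          by_contra hne
          exact C.valid ((hB _ _).2 hne) hj
        rw [hrep] at h2
        have h3 : part u = i := hu
        change C u = C (rep i)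
        rw [← hj, h2, h3]
      refine le_trans ?_ (Set.ncard_le_ncard h1 (Set.toFinite _))
      rw [ncard_eq_cnt, hs]
      unfold szN
      split_ifs
      · exact le_rfl
      · exact ham
  have hn : n = a + (k + 1) * m := by rw [← sum_cnt part, hs, sum_szN]
  unfold chiCr
  rw [hσ, hχ]
  have hm' : (0 : ℝ) < m := by exact_mod_cast hm
  have h1 : (n : ℝ) - a = (k + 1) * m := by
    rw [hn]
    push_cast
    ring
  rw [h1]
  simp only [ENat.toNat_natCast]
  push_cast
  field_simp
  ring

/-- The values of the critical chromatic number on bottlegraphs. -/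
lemma bottle_values {h : ℕ} (x : ℝ) (H : SimpleGraph (Fin h)) (c : ℝ) :
    (∃ (n : ℕ) (B : SimpleGraph (Fin n)), IsBottle x H B ∧ chiCr B = c) ↔
    ∃ k a m : ℕ, 0 < a ∧ a ≤ m ∧
      (∀ j : Fin (k + 2), IntSys H x (a + (k + 1) * m) (szN a m j)) ∧
      ((a + (k + 1) * m : ℕ) : ℝ) / m = c := by
  constructor
  · rintro ⟨n, B, ⟨k, m, part, hsurj, hB, h0, h1, hall⟩, rfl⟩
    have hs : cnt part = szN (cnt part 0) m 0 := by
      funext i
      unfold szN
      split_ifs with hi
      · rw [hi]
      · rw [← ncard_eq_cnt, h1 i hi]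
    rw [ncard_eq_cnt] at h0
    have ha : 0 < cnt part 0 := by
      obtain ⟨u, hu⟩ := hsurj 0
      exact Finset.card_pos.2 ⟨u, by simpa using hu⟩
    have hn : n = cnt part 0 + (k + 1) * m := by rw [← sum_szN _ _ 0, ← hs, sum_cnt]
    refine ⟨k, cnt part 0, m, ha, h0, ?_, ?_⟩
    · rw [← hn]
      exact (labelling_iff x H B part hB hs).1 hall
    · rw [← hn, chiCr_eq B part hsurj hB hs h0 (ha.trans_le h0)]
  · rintro ⟨k, a, m, ha, ham, hall, rfl⟩
    have hcard : Fintype.card (Σ i : Fin (k + 2), Fin (szN a m 0 i)) = a + (k + 1) * m := by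
      simp [sum_szN]
    let e := Fintype.equivFinOfCardEq hcard
    let part : Fin (a + (k + 1) * m) → Fin (k + 2) := fun u => (e.symm u).1
    have hs : cnt part = szN a m 0 := by
      funext i
      unfold cnt
      rw [Finset.card_filter, ← Equiv.sum_comp e, Fintype.sum_sigma]
      simp [part]
    have hsurj : Function.Surjective part := by
      intro i
      have : 0 < cnt part i := by
        rw [hs]
        unfold szN
        split_ifs <;> omega
      obtain ⟨u, hu⟩ := Finset.card_pos.1 this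
      exact ⟨u, by simpa using hu⟩
    let B : SimpleGraph (Fin (a + (k + 1) * m)) := SimpleGraph.comap part ⊤
    have hB : ∀ u v, B.Adj u v ↔ part u ≠ part v := fun u v => by simp [B]
    refine ⟨_, B, ⟨k, m, part, hsurj, hB, ?_, fun i hi => ?_,
      (labelling_iff x H B part hB hs).2 hall⟩, chiCr_eq B part hsurj hB hs ham (by omega)⟩
    · rw [ncard_eq_cnt, hs]
      simpa [szN] using ham
    · rw [ncard_eq_cnt, hs]
      simp [szN, hi]

end Pool.Agent.MP_47c36b_co
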